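import Pool.Agent.V7H47.LB.Spec

/-!
# A translation cover for closed unit curves contains a translate of every triangle of perimeter 1
-/

set_option autoImplicit false

open Real Set MeasureTheory

namespace Pool.Agent.V7H74.LB

open Pool.Agent.V7H47.TC (Plane IsClosedWorm IsTranslationCover)
open Pool.Agent.V7H47.LB

/-- the closed polygon `p → q → r → p` with unit speed -/
noncomputable def path (p q r : Plane) (t : ℝ) : Plane :=
  p + (min t (dist p q) / dist p q) • (q - p) +
    (max 0 (min t (dist p q + dist q r) - dist p q) / dist q r) • (r - q) +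
    (max 0 (t - (dist p q + dist q r)) / dist r p) • (p - r)

lemma norm_piece (a d : ℝ) (u v : Plane) (hd : d = dist u v) (ha : 0 ≤ a) :
    ‖(a / d) • (v - u)‖ ≤ a := by
  rw [norm_smul, ← dist_eq_norm, dist_comm v u, ← hd, Real.norm_eq_abs]
  have hd0 : 0 ≤ d := hd ▸ dist_nonneg
  rw [abs_of_nonneg (div_nonneg ha hd0)]
  rcases hd0.eq_or_lt with h | h
  · rw [← h, mul_zero]; exact ha
  · rw [div_mul_cancel₀ _ h.ne']

lemma path_lip (p q r : Plane) {s t : ℝ} (hst : s ≤ t) :
    dist (path p q r s) (path p q r t) ≤ t - s := by
  set A := dist p q with hA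
  set B := dist q r with hB
  set C := dist r p with hC
  have hA0 : 0 ≤ A := dist_nonneg
  have hB0 : 0 ≤ B := dist_nonneg
  have e : path p q r t - path p q r s = ((min t A - min s A) / A) • (q - p) +
      ((max 0 (min t (A + B) - A) - max 0 (min s (A + B) - A)) / B) • (r - q) +
      ((max 0 (t - (A + B)) - max 0 (s - (A + B))) / C) • (p - r) := by
    unfold path
    rw [← hA, ← hB, ← hC, sub_div, sub_div, sub_div, sub_smul, sub_smul, sub_smul]
    abel
  have h1 : 0 ≤ min t A - min s A := sub_nonneg.2 (min_le_min_right _ hst)
  have h2 : 0 ≤ max 0 (min t (A + B) - A) - max 0 (min s (A + B) - A) :=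
    sub_nonneg.2 (max_le_max_left _ (sub_le_sub_right (min_le_min_right _ hst) _))
  have h3 : 0 ≤ max 0 (t - (A + B)) - max 0 (s - (A + B)) :=
    sub_nonneg.2 (max_le_max_left _ (sub_le_sub_right hst _))
  have key : ∀ x : ℝ, min x A + max 0 (min x (A + B) - A) + max 0 (x - (A + B)) = x := by
    intro x
    rcases le_total x A with h | h
    · rw [min_eq_left h, min_eq_left (by linarith), max_eq_left (by linarith),
        max_eq_left (by linarith)]
      ring
    · rcases le_total x (A + B) with h' | h'
      · rw [min_eq_right h, min_eq_left h', max_eq_right (by linarith), max_eq_left (by linarith)]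
        ring
      · rw [min_eq_right h, min_eq_right h', max_eq_right (by linarith),
          max_eq_right (by linarith)]
        ring
  rw [dist_comm, dist_eq_norm, e]
  refine (norm_add₃_le).trans ?_
  have k1 := norm_piece _ A p q hA h1
  have k2 := norm_piece _ B q r hB h2
  have k3 := norm_piece _ C r p hC h3
  have e1 := key s
  have e2 := key t
  linarith

lemma path_zero (p q r : Plane) : path p q r 0 = p := by
  unfold path
  have hA : 0 ≤ dist p q := dist_nonneg
  have hB : 0 ≤ dist q r := dist_nonneg
  rw [min_eq_left hA, min_eq_left (by linarith), max_eq_left (by linarith),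
    max_eq_left (by linarith)]
  simp

lemma smul_self_piece (u v : Plane) : (dist u v / dist u v) • (v - u) = v - u := by
  rcases eq_or_ne (dist u v) 0 with h | h
  · have : u = v := dist_eq_zero.1 h
    subst this
    simp
  · rw [div_self h, one_smul]

lemma path_one (p q r : Plane) : path p q r (dist p q) = q := by
  unfold path
  have hB : 0 ≤ dist q r := dist_nonneg
  rw [min_self, min_eq_left (by linarith), max_eq_left (by linarith),
    max_eq_left (by linarith), smul_self_piece]
  simp

lemma path_two (p q r : Plane) : path p q r (dist p q + dist q r) = r := by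
  unfold path
  have hB : 0 ≤ dist q r := dist_nonneg
  rw [min_eq_right (by linarith), min_self, sub_self, max_self, smul_self_piece,
    add_sub_cancel_left, max_eq_right hB, smul_self_piece]
  simp

lemma path_three (p q r : Plane) : path p q r (dist p q + dist q r + dist r p) = p := by
  unfold path
  have hB : 0 ≤ dist q r := dist_nonneg
  have hC : 0 ≤ dist r p := dist_nonneg
  rw [min_eq_right (by linarith), min_eq_right (by linarith), smul_self_piece,
    add_sub_cancel_left, max_eq_right hB, smul_self_piece, add_sub_cancel_left,
    max_eq_right hC, smul_self_piece]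
  simp

theorem t_TRI : S_TRI := by
  intro K hK p q r h
  set A := dist p q with hA
  set B := dist q r with hB
  set C := dist r p with hC
  have hA0 : 0 ≤ A := dist_nonneg
  have hB0 : 0 ≤ B := dist_nonneg
  have hC0 : 0 ≤ C := dist_nonneg
  have h0 : path p q r 0 = p := path_zero p q r
  have h1 : path p q r A = q := path_one p q r
  have h2 : path p q r (A + B) = r := path_two p q r
  have h3 : path p q r 1 = p := by rw [← h]; exact path_three p q r
  have hlip : LipschitzWith 1 (path p q r) := by
    apply LipschitzWith.of_dist_le_mul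
    intro s t
    rw [NNReal.coe_one, one_mul]
    rcases le_total s t with hst | hst
    · rw [Real.dist_eq, abs_sub_comm, abs_of_nonneg (sub_nonneg.2 hst)]
      exact path_lip p q r hst
    · rw [dist_comm, Real.dist_eq, abs_of_nonneg (sub_nonneg.2 hst)]
      exact path_lip p q r hst
  have hle : eVariationOn (path p q r) (Icc 0 1) ≤ 1 := by
    have k1 := (hlip.lipschitzOnWith (s := univ)).comp_eVariationOn_le
      (g := (id : ℝ → ℝ)) (s := Icc (0 : ℝ) 1) (fun _ _ => mem_univ _)
    have k2 : eVariationOn (id : ℝ → ℝ) (Icc (0 : ℝ) 1) ≤ ENNReal.ofReal (1 - 0) := by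
      have := (monotoneOn_id (s := (univ : Set ℝ))).eVariationOn_le
        (a := (0 : ℝ)) (b := 1) (mem_univ _) (mem_univ _)
      rw [univ_inter] at this
      exact this
    rw [sub_zero, ENNReal.ofReal_one] at k2
    calc eVariationOn (path p q r) (Icc 0 1) = eVariationOn (path p q r ∘ id) (Icc 0 1) := rfl
      _ ≤ ((1 : NNReal) : ENNReal) * eVariationOn (id : ℝ → ℝ) (Icc (0 : ℝ) 1) := k1
      _ ≤ 1 := by rw [ENNReal.coe_one, one_mul]; exact k2
  have hge : 1 ≤ eVariationOn (path p q r) (Icc 0 1) := by
    have a1 : eVariationOn (path p q r) (Icc 0 A) + eVariationOn (path p q r) (Icc A (A + B)) =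
        eVariationOn (path p q r) (Icc 0 (A + B)) := by
      have := eVariationOn.Icc_add_Icc (path p q r) (s := univ) hA0
        (by linarith : A ≤ A + B) (mem_univ _)
      rwa [univ_inter, univ_inter, univ_inter] at this
    have a2 : eVariationOn (path p q r) (Icc 0 (A + B)) +
        eVariationOn (path p q r) (Icc (A + B) 1) = eVariationOn (path p q r) (Icc 0 1) := by
      have := eVariationOn.Icc_add_Icc (path p q r) (s := univ) (by linarith : 0 ≤ A + B)
        (by linarith : A + B ≤ 1) (mem_univ _)
      rwa [univ_inter, univ_inter, univ_inter] at this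
    have b1 : edist p q ≤ eVariationOn (path p q r) (Icc 0 A) := by
      have := eVariationOn.edist_le (path p q r) (s := Icc 0 A) (left_mem_Icc.2 hA0)
        (right_mem_Icc.2 hA0)
      rwa [h0, h1] at this
    have b2 : edist q r ≤ eVariationOn (path p q r) (Icc A (A + B)) := by
      have := eVariationOn.edist_le (path p q r) (s := Icc A (A + B))
        (left_mem_Icc.2 (by linarith)) (right_mem_Icc.2 (by linarith))
      rwa [h1, h2] at this
    have b3 : edist r p ≤ eVariationOn (path p q r) (Icc (A + B) 1) := by
      have := eVariationOn.edist_le (path p q r) (s := Icc (A + B) 1)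
        (left_mem_Icc.2 (by linarith)) (right_mem_Icc.2 (by linarith))
      rwa [h2, h3] at this
    have c : (1 : ENNReal) = edist p q + edist q r + edist r p := by
      rw [edist_dist, edist_dist, edist_dist, ← ENNReal.ofReal_add hA0 hB0,
        ← ENNReal.ofReal_add (by positivity) hC0, ← ENNReal.ofReal_one]
      exact congrArg _ h.symm
    rw [c, ← a2, ← a1]
    exact add_le_add (add_le_add b1 b2) b3
  obtain ⟨v, hv⟩ := hK (path p q r) ⟨hlip.continuous.continuousOn, by rw [h0, h3],
    le_antisymm hle hge⟩
  refine ⟨v, ?_, ?_, ?_⟩
  · have := hv 0 ⟨le_refl _, zero_le_one⟩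
    rwa [h0] at this
  · have := hv A ⟨hA0, by linarith⟩
    rwa [h1] at this
  · have := hv (A + B) ⟨by linarith, by linarith⟩
    rwa [h2] at this

end Pool.Agent.V7H74.LB
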